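import Pool.Agent.H.MP_879d44_al.B

namespace Pool.Agent.Results.MP_879d44_al.No

open Pool.Agent.H.MP_879d44_al

theorem result : ∃ (G : Type) (_ : Group G), Countable G ∧ (∀ g : G, g ≠ 1 → ¬ IsOfFinOrder g) ∧
    MetrizablyEnded G ∧ ¬ FiniteKurosh G :=
  ⟨Γ, inferInstance, inferInstance, tf, met, not_fk⟩

end Pool.Agent.Results.MP_879d44_al.No
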